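import Pool.Agent.H.MP_fb0356_an.B

set_option autoImplicit false

namespace Pool.Agent.H.MP_3070fc_an

open scoped Topology
open Filter Real CircleDeg1Lift

noncomputable def e (x : ℝ) : Circle := Circle.exp (2 * π * x)

lemma e_eq {x y : ℝ} : e x = e y ↔ ∃ k : ℤ, x = y + k := by
  rw [e, e, Circle.exp_eq_exp]
  exact exists_congr fun k => ⟨fun h => mul_left_cancel₀ two_pi_pos.ne' (by linarith),
    fun h => by rw [h]; ring⟩

lemma e_cont : Continuous e := Circle.exp.continuous.comp (by fun_prop)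

lemma e_surj (w : Circle) : ∃ x, e x = w :=
  ⟨Complex.arg w / (2 * π), by rw [e, mul_div_cancel₀ _ two_pi_pos.ne', Circle.exp_arg]⟩

lemma uniq {F G : ℝ → ℝ} (hF : Continuous F) (hG : Continuous G) (h : ∀ x, e (F x) = e (G x)) :
    ∃ k : ℤ, ∀ x, F x = G x + k := by
  choose k hk using fun x => e_eq.1 (h x)
  have h2 : Continuous k := Int.isClosedEmbedding_coe_real.isEmbedding.continuous_iff.2
    ((hF.sub hG).congr fun x => by simp [hk x])
  exact ⟨k 0, fun x => by rw [← PreconnectedSpace.constant inferInstance h2 (x := x) (y := 0), ← hk]⟩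

lemma exl {f : ℝ → Circle} (hf : Continuous f) : ∃ F : ℝ → ℝ, Continuous F ∧ ∀ x, e (F x) = f x := by
  obtain ⟨F, h, -⟩ := Circle.isCoveringMap_exp.existsUnique_continuousMap_lifts ⟨f, hf⟩ 0 _
    (Circle.exp_arg _)
  exact ⟨fun x => F x / (2 * π), F.continuous.div_const _, fun x => by
    rw [e, mul_div_cancel₀ _ two_pi_pos.ne']; exact congrFun h.2 x⟩

lemma kz {A B : CircleDeg1Lift} {k : ℤ} (h : ∀ x, A (B x) = B (A x) + k) : Commute A B := by
  have h1 := translationNumber_eq_of_semiconjBy (f := A) (g₁ := B)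
    (g₂ := (translate (Multiplicative.ofAdd (k : ℝ)) : CircleDeg1Liftˣ) * B) (by
      ext x; simp [h, add_comm])
  rw [translationNumber_mul_of_commute (by ext x; simp), translationNumber_translate] at h1
  ext x; simp [h, show (k : ℝ) = 0 by linarith]

lemma fix {F : ℝ → ℝ} (hF : Continuous F) (hm : Monotone F) (h1 : ∀ x, F (x + 1) = F x + 1)
    {p : ℝ} (hp : F p = p) {C : Set ℝ} (hC : IsClosed C) (h2 : Set.MapsTo F C C)
    (h3 : ∀ x ∈ C, ∀ k : ℤ, x + k ∈ C) (h4 : C.Nonempty) : ∃ x ∈ C, F x = x := by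
  have h5 : ∀ x ∈ Set.Icc p (p + 1) ∩ C, F x ∈ Set.Icc p (p + 1) ∩ C := fun x hx =>
    ⟨⟨hp ▸ hm hx.1.1, (hm hx.1.2).trans (by rw [h1, hp])⟩, h2 hx.2⟩
  have h6 := isCompact_Icc (a := p) (b := p + 1) |>.inter_right hC
  obtain ⟨x, hx⟩ := h4
  obtain ⟨m, h7⟩ := h6.exists_isLeast ⟨x + (-⌊x - p⌋ : ℤ), ⟨by
    push_cast; linarith [Int.floor_le (x - p)], by
    push_cast; linarith [Int.lt_floor_add_one (x - p)]⟩, h3 x hx _⟩
  obtain ⟨s, h8⟩ := (h6.inter_right (isClosed_le continuous_id hF)).exists_isGreatest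
    ⟨m, h7.1, h7.2 (h5 m h7.1)⟩
  exact ⟨s, h8.1.1.2, (h8.2 ⟨h5 s h8.1.1, hm h8.1.2⟩).antisymm h8.1.2⟩

theorem nomin {G : Type} [Group G] (ψ : G → Circle → Circle) (h1 : ψ 1 = id)
    (hm : ∀ g h, ψ (g * h) = ψ g ∘ ψ h) (hi : ψ.Injective) (hc : ∀ g, Continuous (ψ g))
    (hd : ∀ x, Dense {y | ∃ g, ψ g x = y}) (z t : G)
    (hz : ∀ g h, Commute (g * z * g⁻¹) (h * z * h⁻¹)) :
    z * z * (t * t * (z * z) * (t * t)⁻¹)⁻¹ = 1 := by
  let P : Equiv.Perm ℝ → G → Prop := fun F g =>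
    Continuous F ∧ Continuous ⇑F⁻¹ ∧ ∀ x, e (F x) = ψ g (e x)
  have Pm : ∀ {F g F' g'}, P F g → P F' g' → P (F * F') (g * g') := fun h h' =>
    ⟨h.1.comp h'.1, h'.2.1.comp h.2.1, fun x => by simp [h.2.2, h'.2.2, hm]⟩
  have hinv : ∀ g x, ψ g⁻¹ (ψ g x) = x := fun g x => by
    rw [← Function.comp_apply (f := ψ g⁻¹), ← hm, inv_mul_cancel, h1, id]
  have Pi : ∀ {F g}, P F g → P F⁻¹ g⁻¹ := fun {F g} h => ⟨h.2.1, h.1, fun x => by
    rw [← hinv g (e (F⁻¹ x)), ← h.2.2]; simp⟩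
  have Pe : ∀ g, ∃ F, P F g := fun g => by
    obtain ⟨F, F1, F2⟩ := exl ((hc g).comp e_cont)
    obtain ⟨F', F3, F4⟩ := exl ((hc g⁻¹).comp e_cont)
    obtain ⟨k, hk⟩ := uniq (F3.comp F1) continuous_id fun x => by simp [F2, F4, hinv]
    obtain ⟨l, hl⟩ := uniq (F1.comp F3) continuous_id fun x => by
      simpa [F2, F4] using hinv g⁻¹ (e x)
    have h2 : F.Injective := fun x y h => by
      simpa using (hk x).symm.trans ((congrArg F' h).trans (hk y))
    have h3 : ∀ y, F (F' y - k) = y := fun y => by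
      obtain ⟨x, rfl⟩ : ∃ x, F x = y := ⟨F' (y - l), (hl _).trans (by simp)⟩
      rw [show F' (F x) = x + k from hk x, add_sub_cancel_right]
    exact ⟨⟨F, fun y => F' y - k, fun x => h2 (h3 _), h3⟩, F1, F3.sub continuous_const, F2⟩
  have P1 : ∀ {F g}, P F g → StrictMono F → ∀ x, F (x + 1) = F x + 1 := fun {F g} h hF x => by
    obtain ⟨k, hk⟩ := uniq (F := fun x => F (x + 1)) (h.1.comp (by fun_prop)) h.1 fun x => by
      rw [h.2.2, h.2.2, e_eq.2 ⟨1, by rw [Int.cast_one]⟩]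
    obtain ⟨m, h2⟩ := e_eq.1 (show e (F⁻¹ (F 0 + 1)) = e 0 by
      rw [(Pi h).2.2, e_eq.2 ⟨1, by rw [Int.cast_one]⟩, h.2.2, hinv])
    rw [Equiv.Perm.inv_eq_iff_eq, zero_add] at h2
    have h3 : (0 : ℝ) < m := hF.lt_iff_lt.1 (by linarith)
    have h4 := hF.monotone (show (0 + 1 : ℝ) ≤ m by exact_mod_cast Int.cast_pos.1 h3)
    have h5 := hF (lt_add_one 0)
    rw [hk] at h4 h5
    have h6 : k ≤ 1 := by exact_mod_cast (by linarith : (k : ℝ) ≤ 1)
    have h7 : 0 < k := by exact_mod_cast (by linarith : (0 : ℝ) < k)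
    rw [hk, show k = 1 by omega, Int.cast_one]
  have Sq : ∀ {F g}, P F g → StrictMono ⇑(F * F) := fun {F g} h =>
    (h.1.strictMono_of_inj F.injective).elim (fun h => h.comp h) fun h => h.comp h
  have Cj : ∀ {F g} {U : Equiv.Perm ℝ}, P F g → StrictMono U → StrictMono ⇑(F * U * F⁻¹) :=
    fun {F g U} h hU x y hxy => (h.1.strictMono_of_inj F.injective).elim
      (fun hF => hF (hU (hF.lt_iff_lt.1 (by simpa)))) fun hF => hF (hU (hF.lt_iff_gt.1 (by simpa)))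
  let mk : ∀ {F g}, P F g → StrictMono F → CircleDeg1Lift := fun {F g} h h' =>
    ⟨⟨F, h'.monotone⟩, P1 h h'⟩
  have Cm : ∀ {F g F' g'}, P F g → P F' g' → StrictMono F → StrictMono F' → Commute g g' →
      ∀ x, F (F' x) = F' (F x) := fun h h' k k' hg x => by
    obtain ⟨n, hn⟩ := uniq (Pm h h').1 (Pm h' h).1 fun x => by
      rw [(Pm h h').2.2, (Pm h' h).2.2, hg.eq]
    exact congrArg (· x) (kz (A := mk h k) (B := mk h' k') hn).eq
  have h2 : ∀ g, g * (z * z * (t * t * (z * z) * (t * t)⁻¹)⁻¹) * g⁻¹ = g * z * g⁻¹ * (g * z * g⁻¹) *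
      (g * t * t * z * (g * t * t)⁻¹ * (g * t * t * z * (g * t * t)⁻¹))⁻¹ := fun g => by group
  have h3 : Commute (z * z) (t * t * (z * z) * (t * t)⁻¹) := by
    have := hz 1 (t * t)
    rw [one_mul, inv_one, mul_one] at this
    simpa [mul_assoc] using (this.mul_left this).mul_right (this.mul_left this)
  obtain ⟨Z, hZ⟩ := Pe z
  obtain ⟨T, hT⟩ := Pe t
  have a1 := Pm hZ hZ
  have a2 := Pm hT hT
  have a3 := Pm (Pm a2 a1) (Pi a2)
  have b3 := Cj a2 (Sq hZ)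
  have a4 := Pm a1 (Pi a3)
  have b4 : StrictMono ⇑(Z * Z * (T * T * (Z * Z) * (T * T)⁻¹)⁻¹) := fun x y h =>
    Sq hZ (b3.lt_iff_lt.1 (by simpa))
  obtain ⟨p, hp⟩ := (mk a4 b4).exists_eq_add_translationNumber a4.1
  have h4 := translationNumber_mul_of_commute (f := mk a4 b4) (g := mk a3 b3)
    (CircleDeg1Lift.ext (Cm a4 a3 b4 b3 (h3.mul_left (Commute.refl _).inv_left)))
  rw [← translationNumber_eq_of_semiconjBy (f := mk a2 (Sq hT)) (g₁ := mk a1 (Sq hZ)) (g₂ := mk a3 b3)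
    (CircleDeg1Lift.ext fun x => congrArg (· x) (inv_mul_cancel_right (T * T * (Z * Z)) (T * T)).symm),
    show mk a4 b4 * mk a3 b3 = mk a1 (Sq hZ) from
      CircleDeg1Lift.ext fun x => congrArg (· x) (inv_mul_cancel_right (Z * Z) _), right_eq_add] at h4
  rw [h4, add_zero] at hp
  change (Z * Z * (T * T * (Z * Z) * (T * T)⁻¹)⁻¹) p = p at hp
  clear h4
  generalize z * z * (t * t * (z * z) * (t * t)⁻¹)⁻¹ = u at *
  generalize Z * Z * (T * T * (Z * Z) * (T * T)⁻¹)⁻¹ = U at *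
  have h5 : ∀ g h, Commute (g * u * g⁻¹) (h * u * h⁻¹) := fun g h => by
    have : ∀ g, Commute (g * z * g⁻¹) (h * u * h⁻¹) := fun g => h2 h ▸
      ((hz _ _).mul_right (hz _ _)).mul_right ((hz _ _).mul_right (hz _ _)).inv_right
    exact h2 g ▸ ((this _).mul_left (this _)).mul_left ((this _).mul_left (this _)).inv_left
  choose F hF using Pe
  have a5 := fun g => Pm (Pm (hF g) a4) (Pi (hF g))
  have b5 := fun g => Cj (hF g) b4
  have h6 : ∀ g x (k : ℤ), (F g * U * (F g)⁻¹) x = x → (F g * U * (F g)⁻¹) (x + k) = x + k :=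
    fun g x k h => ((mk (a5 g) (b5 g)).map_add_int x k).trans (congrArg (· + (k : ℝ)) h)
  have h7 : ∀ s : Finset G, ∃ x, ∀ g ∈ s, (F g * U * (F g)⁻¹) x = x := fun s => by
    classical
    induction s using Finset.induction_on with
    | empty => exact ⟨0, by simp⟩
    | insert a s _ ih =>
      obtain ⟨x, h8, h9⟩ := fix (a5 a).1 (b5 a).monotone (P1 (a5 a) (b5 a)) (p := F a p)
        (by simp [hp]) (C := {x | ∀ g ∈ s, (F g * U * (F g)⁻¹) x = x})
        (by simpa only [Set.setOf_forall] using isClosed_iInter fun g => isClosed_iInter fun _ =>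
          isClosed_eq (a5 g).1 continuous_id')
        (fun x hx g hg => by rw [Cm (a5 g) (a5 a) (b5 g) (b5 a) (h5 g a), hx g hg])
        (fun x hx k g hg => h6 g x k (hx g hg)) ih
      exact ⟨x, fun g hg => (Finset.mem_insert.1 hg).elim (fun h => h ▸ h9) (h8 g)⟩
  obtain ⟨c, -, h8⟩ := (isCompact_Icc (a := (0 : ℝ)) (b := 1)).inter_iInter_nonempty
    (fun g => {x | (F g * U * (F g)⁻¹) x = x}) (fun g => isClosed_eq (a5 g).1 continuous_id)
    fun s => let ⟨x, hx⟩ := h7 s; ⟨x + (-⌊x⌋ : ℤ), ⟨by push_cast; linarith [Int.floor_le x],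
      by push_cast; linarith [Int.lt_floor_add_one x]⟩,
      Set.mem_iInter₂.2 fun g hg => h6 g x _ (hx g hg)⟩
  refine hi (h1 ▸ Continuous.ext_on (hd (e c)) (hc u) continuous_id ?_)
  rintro _ ⟨g, rfl⟩
  have := (a5 g⁻¹).2.2 c
  rw [Set.mem_iInter.1 h8 g⁻¹, hm, hm, inv_inv] at this
  have h9 := hinv g⁻¹ (ψ u (ψ g (e c)))
  rw [inv_inv] at h9
  exact h9.symm.trans (congrArg (ψ g) this.symm)

end Pool.Agent.H.MP_3070fc_an
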