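import Pool.Agent.H.MP_3070fc_an.A

set_option autoImplicit false

namespace Pool.Agent.H.MP_3070fc_an

open scoped Topology ContDiff
open Filter Real
open Pool.Agent.H.MP_fb0356_an (Dg tr tr_apply tr_inv tr_mem Dg_int pinv bump)

lemma pp {X : Type} {f : Bool → Equiv.Perm X} {Y : Bool × Bool → Set X} {W : Set X}
    (h1 : ∀ x w, w ∉ Y (x.1, !x.2) → (cond x.2 (f x.1) (f x.1)⁻¹) w ∈ Y x)
    (h2 : ∀ x y, x ≠ y → Disjoint (Y x) (Y y)) (h3 : ∀ x, Disjoint W (Y x))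
    (g : FreeGroup Bool) : FreeGroup.lift f g = 1 ∨ ∀ w ∈ W, FreeGroup.lift f g w ∉ W := by
  have h : ∀ L x, FreeGroup.IsReduced (x :: L) → ∀ w ∈ W,
      FreeGroup.lift f (FreeGroup.mk (x :: L)) w ∈ Y x := fun L => by
    induction L with
    | nil => exact fun x _ w hw => by simpa using h1 x w (Set.disjoint_left.1 (h3 _) hw)
    | cons y L ih =>
      intro x hx w hw
      rw [FreeGroup.isReduced_cons_cons] at hx
      refine h1 x _ (Set.disjoint_left.1 (h2 y _ ?_) (ih y hx.2 w hw))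
      rintro rfl
      simp at hx
  have h4 := FreeGroup.isReduced_toWord (x := g)
  rw [← FreeGroup.mk_toWord (x := g)]
  generalize g.toWord = L at h4
  rcases L with _ | ⟨x, L⟩
  · exact Or.inl rfl
  · exact Or.inr fun w hw hw' => Set.disjoint_left.1 (h3 x) hw' (h L x h4 w hw)

lemma e_open : IsOpenMap e :=
  isLocalHomeomorph_circleExp.isOpenMap.comp (Homeomorph.mulLeft₀ _ two_pi_pos.ne').isOpenMap

def D : Subgroup (Equiv.Perm Circle) where
  carrier := {g | ∃ F ∈ Dg, ∀ x, g (e x) = e (F x)}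
  one_mem' := ⟨1, one_mem _, fun _ => rfl⟩
  mul_mem' := fun ⟨F, a, b⟩ ⟨G, c, d⟩ => ⟨F * G, mul_mem a c, fun x => by simp [b, d]⟩
  inv_mem' := fun ⟨F, a, b⟩ => ⟨F⁻¹, inv_mem a, fun x => by rw [Equiv.Perm.inv_eq_iff_eq, b]; simp⟩

lemma D_cont {g : Equiv.Perm Circle} (h : g ∈ D) : Continuous g :=
  let ⟨_, a, b⟩ := h
  (e_open.isQuotientMap e_cont e_surj).continuous_iff.2 ((e_cont.comp a.1.continuous).congr
    fun x => (b x).symm)

lemma desc {F : Equiv.Perm ℝ} (h : F ∈ Dg) : ∃ g : Equiv.Perm Circle, ∀ x, g (e x) = e (F x) := by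
  choose s hs using e_surj
  have h1 : ∀ F ∈ Dg, ∀ x, e (F (s (e x))) = e (F x) := fun F h x =>
    let ⟨k, hk⟩ := e_eq.1 (hs (e x)); e_eq.2 ⟨k, by rw [hk, Dg_int h]⟩
  exact ⟨⟨fun w => e (F (s w)), fun w => e (F⁻¹ (s w)), 
    fun w => (h1 _ (inv_mem h) _).trans (by simp [hs]), fun w => by simp [h1 _ h, hs]⟩, h1 F h⟩

lemma exa : ∃ a ∈ Dg, a 0 = 0 ∧ ∀ x, 1 / 16 ≤ x → x ≤ 15 / 16 → |a x - 1 / 2| < 1 / 16 := by
  let K : ℝ → ℝ := fun x => x + sin (2 * π * x) / (4 * π)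
  have h0 : ContDiff ℝ ∞ K := by fun_prop
  have h1 : ∀ x, 0 < deriv K x := fun x => by
    have : HasDerivAt K _ x :=
      (hasDerivAt_id x).add ((((hasDerivAt_id x).const_mul (2 * π)).sin).div_const _)
    rw [this.deriv.trans (show _ = 1 + cos (2 * π * x) / 2 by simp; field_simp; ring)]
    linarith [neg_one_le_cos (2 * π * x)]
  have h2 := strictMono_of_deriv_pos h1
  have h3 : ∀ x, K (x + 1) = K x + 1 := fun x => by
    simp only [K, mul_add, mul_one, sin_add_two_pi]; ring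
  let a := Equiv.ofBijective K ⟨h2.injective, (CircleDeg1Lift.continuous_iff_surjective
    ⟨⟨K, h2.monotone⟩, h3⟩).1 h0.continuous⟩
  have ha : a ∈ Dg := ⟨h0, (pinv (fun _ => a) (h0.comp contDiff_snd) fun _ x => (h1 x).ne').comp
    ((contDiff_const (c := (0 : ℝ))).prodMk contDiff_id), h2, h3⟩
  have h4 : ∀ (n : ℕ) x, K^[n] (1 - x) = 1 - K^[n] x := fun n x =>
    (Function.Semiconj.iterate_right (f := fun x => 1 - x) (ga := K) (gb := K) (fun x => by
      simp only [K, mul_sub, mul_one, sin_two_pi_sub]; ring) n x).symm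
  have h5 : ∀ x, 0 < x → x < 1 / 2 → x < K x := fun x h h' => lt_add_of_pos_right _
    (div_pos (sin_pos_of_pos_of_lt_pi (by positivity) (by nlinarith [pi_pos])) (by positivity))
  obtain ⟨n, hn⟩ : ∃ n, 7 / 16 < K^[n] (1 / 16) := by
    by_contra! h
    have h6 := h2.monotone.monotone_iterate_of_le_map (h5 (1 / 16) (by norm_num) (by norm_num)).le
    have h7 : BddAbove (Set.range fun n => K^[n] (1 / 16)) := ⟨_, Set.forall_mem_range.2 h⟩
    exact (h5 _ (lt_of_lt_of_le (by norm_num) (le_ciSup h7 0)) ((ciSup_le h).trans_lt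
      (by norm_num))).ne' (isFixedPt_of_tendsto_iterate (tendsto_atTop_ciSup h6 h7)
      h0.continuous.continuousAt)
  refine ⟨a ^ n, pow_mem ha n, Function.iterate_fixed (f := K) (by simp [K]) n, fun x h6 h7 => ?_⟩
  have h8 := h2.monotone.iterate n h6
  have h9 := h2.monotone.iterate n (show x ≤ 1 - 1 / 16 by linarith)
  rw [h4] at h9
  change |K^[n] x - 1 / 2| < _
  exact abs_lt.2 ⟨by linarith, by linarith⟩

def X (c : ℝ) : Set Circle := e '' Set.Ioo (c - 1 / 16) (c + 1 / 16)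

lemma X_dis {m n : ℤ} (h : m ≠ n) (h' : |m - n| < 8) : Disjoint (X (m / 8)) (X (n / 8)) := by
  refine Set.disjoint_left.2 ?_
  rintro _ ⟨x, hx, rfl⟩ ⟨y, hy, h1⟩
  obtain ⟨k, rfl⟩ := e_eq.1 h1
  have h2 : n - m - 8 * k < 1 := by
    exact_mod_cast (by linarith [hx.2, hy.1] : (n - m - 8 * k : ℝ) < 1)
  have h3 : -1 < n - m - 8 * k := by
    exact_mod_cast (by linarith [hx.1, hy.2] : (-1 : ℝ) < n - m - 8 * k)
  rw [abs_lt] at h'
  omega

lemma exA (c : ℝ) : ∃ g ∈ D, g (e c) = e c ∧ ∀ w, w ∉ X c → g w ∈ X (c + 1 / 2) := by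
  obtain ⟨a, ha, h0, h⟩ := exa
  have h1 := mul_mem (mul_mem (tr_mem c) ha) (tr_mem (-c))
  obtain ⟨g, hg⟩ := desc h1
  refine ⟨g, ⟨_, h1, hg⟩, by simp [hg, h0], fun w hw => ?_⟩
  obtain ⟨x, rfl⟩ := e_surj w
  have h2 := Int.fract_nonneg (x - c)
  have h3 := Int.fract_lt_one (x - c)
  have h4 : e x = e (Int.fract (x - c) + c) := e_eq.2 ⟨⌊x - c⌋, by rw [Int.fract]; ring⟩
  generalize Int.fract (x - c) = y at *
  have h5 := abs_lt.1 (h y (not_lt.1 fun h => hw ⟨_, ⟨by linarith, by linarith⟩, h4.symm⟩)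
    (not_lt.1 fun h => hw ⟨y + c - 1, ⟨by linarith, by linarith⟩,
      (h4.trans (e_eq.2 ⟨1, by simp⟩)).symm⟩))
  exact ⟨a y + c, ⟨by linarith, by linarith⟩, by simp [h4, hg]⟩

lemma exZ : ∃ z ∈ D, (∀ w, w ∉ X 0 → z w = w) ∧ e 0 ∈ X 0 ∧ z (z (e 0)) ≠ e 0 := by
  obtain ⟨h, h1, h2, -, h3, h4, h5, h6⟩ := bump pi_pos (show (0 : ℝ) < 1 / 16 by norm_num)
    (by linarith [pi_le_four])
  have h7 : h 1 ∈ Dg := ⟨h1.comp (contDiff_const.prodMk contDiff_id),
    h2.comp (contDiff_const.prodMk contDiff_id), h3 1, h4 1 1 1 (by simp)⟩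
  obtain ⟨z, hz⟩ := desc h7
  have h8 : ∀ x, h 1 x ≠ x → ∃ k : ℤ, |x - k| < 1 / 16 := fun x hx => (h5 1 x hx).imp fun k hk => by
    rwa [mul_comm _ π, ← mul_sub, abs_mul, abs_of_pos pi_pos, mul_lt_mul_iff_right₀ pi_pos] at hk
  refine ⟨z, ⟨_, h7, hz⟩, fun w hw => ?_, ⟨0, by norm_num, rfl⟩, fun h9 => ?_⟩
  · obtain ⟨x, rfl⟩ := e_surj w
    by_contra h9
    obtain ⟨k, hk⟩ := h8 x fun h => h9 (by rw [hz, h])
    rw [abs_lt] at hk
    exact hw ⟨x - k, ⟨by linarith, by linarith⟩, (e_eq.2 ⟨k, by simp⟩).symm⟩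
  · have a1 := h6 1 one_pos (by linarith [two_le_pi])
    have a2 : h 1 (1 / 2) = 1 / 2 := by
      by_contra h
      obtain ⟨k, hk⟩ := h8 _ h
      rw [abs_lt] at hk
      have b1 : 0 < k := by exact_mod_cast (by linarith : (0 : ℝ) < k)
      have b2 : k < 1 := by exact_mod_cast (by linarith : (k : ℝ) < 1)
      omega
    rw [hz, hz] at h9
    obtain ⟨k, hk⟩ := e_eq.1 h9
    have a3 := h3 1 (h3 1 one_half_pos)
    have a4 := h3 1 a1
    rw [a2, a2] at a3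
    have b1 : 0 < k := by exact_mod_cast (by linarith : (0 : ℝ) < k)
    have b2 : k < 1 := by exact_mod_cast (by linarith : (k : ℝ) < 1)
    omega

theorem ex : ∃ G : Subgroup (Equiv.Perm Circle), Group.FG G ∧ G ≤ D ∧
    (∃ K : Set Circle, IsClosed K ∧ K.Nonempty ∧ (∀ g ∈ G, g '' K ⊆ K) ∧
      (∀ L : Set Circle, L ⊆ K → IsClosed L → L.Nonempty → (∀ g ∈ G, g '' L ⊆ L) → L = K) ∧
      K.Infinite ∧ K ≠ Set.univ) ∧ ∃ z ∈ G, ∃ t ∈ G,
    (∀ g ∈ G, ∀ h ∈ G, Commute (g * z * g⁻¹) (h * z * h⁻¹)) ∧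
      z * z * (t * t * (z * z) * (t * t)⁻¹)⁻¹ ≠ 1 := by
  choose f f1 f3 f2 using fun i : Bool => exA ((cond i 1 3 : ℤ) / 8)
  obtain ⟨z, z1, z2, z3, z4⟩ := exZ
  let Y : Bool × Bool → Set Circle := fun x => X ((cond x.1 1 3 + cond x.2 4 0 : ℤ) / 8)
  have h0 : ∀ i w, w ∉ Y (i, false) → f i w ∈ Y (i, true) := fun i w h => by
    convert f2 i w (by simpa [Y] using h) using 2
    push_cast; simp; ring
  have h2 : ∀ x y, x ≠ y → Disjoint (Y x) (Y y) := fun x y h =>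
    X_dis (by revert x y; decide) (by revert x y; decide)
  have h3 : ∀ x, Disjoint (X 0) (Y x) := fun x => by
    simpa using X_dis (m := 0) (by revert x; decide) (by revert x; decide)
  have h1 : ∀ x w, w ∉ Y (x.1, !x.2) → (cond x.2 (f x.1) (f x.1)⁻¹) w ∈ Y x := by
    rintro ⟨i, _ | _⟩ w h
    · exact not_not.1 fun h' => h (by simpa using h0 i _ h')
    · exact h0 i w h
  have h4 := pp h1 h2 h3
  have h5 : ∀ i (n : ℕ) w, w ∉ Y (i, false) → (f i ^ (n + 1)) w ∈ Y (i, true) := fun i n w h => by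
    induction n with
    | zero => simpa using h0 i w h
    | succ n ih => exact pow_succ' (f i) _ ▸ h0 i _ (Set.disjoint_left.1 (h2 _ _ (by simp)) ih)
  let φ := FreeGroup.lift f
  have h6 : ∀ i, φ (FreeGroup.of i) = f i := fun i => FreeGroup.lift_apply_of
  have h7 : ∀ g, Commute z (φ g * z * (φ g)⁻¹) := fun g => (h4 g).elim
    (fun h => by simp [φ, h]) fun h => Equiv.Perm.Disjoint.commute fun w => by
      by_cases hw : (φ g)⁻¹ w ∈ X 0
      · exact Or.inl (z2 _ (by simpa [φ] using h _ hw))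
      · exact Or.inr (by simp only [Equiv.Perm.mul_apply, z2 _ hw]; simp)
  have h8 : ∀ g h, Commute (φ g * z * (φ g)⁻¹) (φ h * z * (φ h)⁻¹) := fun g h => by
    simpa [mul_assoc] using (h7 (g⁻¹ * h)).conj (φ g)
  let G := Subgroup.closure (insert z (Set.range f))
  have h9 : ∀ g ∈ G, (∀ h, ∃ h', g * (φ h * z * (φ h)⁻¹) * g⁻¹ = φ h' * z * (φ h')⁻¹) ∧
      ∀ w, (∃ h, φ h w ∈ X 0) → ∃ h, φ h (g w) ∈ X 0 := fun g hg => by
    have k1 : ∀ w, z w ∈ X 0 ∨ z w = w := fun w => (em _).imp_right fun h => z.injective (z2 _ h)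
    have k2 : ∀ w, z⁻¹ w ∈ X 0 ∨ z⁻¹ w = w := fun w => (em _).imp_right fun h => by
      simpa using (z2 _ h).symm
    have k3 : ∀ g, (∀ h, ∃ h', φ g * (φ h * z * (φ h)⁻¹) * (φ g)⁻¹ = φ h' * z * (φ h')⁻¹) ∧
        ∀ w, (∃ h, φ h w ∈ X 0) → ∃ h, φ h (φ g w) ∈ X 0 := fun g =>
      ⟨fun h => ⟨g * h, by simp [mul_assoc]⟩, fun w ⟨h, hh⟩ => ⟨h * g⁻¹, by simpa using hh⟩⟩
    induction hg using Subgroup.closure_induction'' with
    | mem x hx =>
      obtain rfl | ⟨i, rfl⟩ := hx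
      · exact ⟨fun h => ⟨h, (h7 h).mul_inv_cancel⟩, fun w hw =>
          (k1 w).elim (fun h => ⟨1, by simpa⟩) fun h => h.symm ▸ hw⟩
      · exact h6 i ▸ k3 _
    | inv_mem x hx =>
      obtain rfl | ⟨i, rfl⟩ := hx
      · exact ⟨fun h => ⟨h, (h7 h).inv_left.mul_inv_cancel⟩, fun w hw =>
          (k2 w).elim (fun h => ⟨1, by simpa⟩) fun h => h.symm ▸ hw⟩
      · exact h6 i ▸ map_inv φ _ ▸ k3 _
    | one => exact ⟨fun h => ⟨h, by simp⟩, fun w hw => hw⟩
    | mul x y _ _ hx hy =>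
      refine ⟨fun h => ?_, fun w hw => hx.2 _ (hy.2 w hw)⟩
      obtain ⟨a, ha⟩ := hy.1 h
      obtain ⟨b, hb⟩ := hx.1 a
      exact ⟨b, by rw [← hb, ← ha]; group⟩
  have hf : ∀ i, f i ∈ G := fun i => Subgroup.subset_closure (Or.inr ⟨i, rfl⟩)
  have hD : G ≤ D := (Subgroup.closure_le _).2 (Set.insert_subset z1 (Set.range_subset_iff.2 f1))
  have hφ : ∀ g, φ g ∈ D := fun g =>
    FreeGroup.range_lift_le (f := f) (Set.range_subset_iff.2 f1) ⟨g, rfl⟩
  refine ⟨G, inferInstance, hD, ?_, z, Subgroup.subset_closure (Or.inl rfl), f true, hf _,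
    fun g hg h hh => ?_, fun h => z4 ?_⟩
  · obtain ⟨p, hp⟩ : ∃ p, f true p = p := ⟨_, f3 true⟩
    have k0 : IsClosed {w | ∀ h, φ h w ∉ X 0} ∧ {w | ∀ h, φ h w ∉ X 0}.Nonempty ∧
        ∀ g ∈ G, g '' {w | ∀ h, φ h w ∉ X 0} ⊆ {w | ∀ h, φ h w ∉ X 0} := by
      refine ⟨?_, ⟨p, fun h h' => (h4 (h * FreeGroup.of true * h⁻¹)).elim (fun k => ?_) fun k => ?_⟩,
        fun g hg => Set.image_subset_iff.2 fun w hw h h' => ?_⟩
      · rw [Set.setOf_forall]
        exact isClosed_iInter fun h =>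
          (e_open _ isOpen_Ioo).isClosed_compl.preimage (D_cont (hφ h))
      · rw [map_mul, map_mul, map_inv, mul_inv_eq_one, mul_eq_left, FreeGroup.lift_apply_of] at k
        exact Set.disjoint_left.1 (h3 _) z3
          (by simpa [k] using h0 true _ (Set.disjoint_left.1 (h3 _) z3))
      · exact k _ h' (by simpa [φ, hp] using h')
      · obtain ⟨a, ha⟩ := (h9 _ (inv_mem hg)).2 _ ⟨h, h'⟩
        exact hw a (by simpa using ha)
    obtain ⟨K, k1, ⟨k2, k3, k4⟩, k5⟩ := zorn_superset_nonempty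
      {K : Set Circle | IsClosed K ∧ K.Nonempty ∧ ∀ g ∈ G, g '' K ⊆ K} (fun c hc h h' =>
        ⟨⋂₀ c, ⟨isClosed_sInter fun s hs => (hc hs).1, by
          haveI := h'.to_subtype
          exact IsCompact.nonempty_sInter_of_directed_nonempty_isCompact_isClosed
            (fun a ha b hb => (h.total ha hb).elim (fun k => ⟨a, ha, le_rfl, k⟩)
              fun k => ⟨b, hb, k, le_rfl⟩) (fun s hs => (hc hs).2.1) (fun s hs => (hc hs).1.isCompact)
            fun s hs => (hc hs).1,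
          fun g hg => Set.image_subset_iff.2 fun w hw s hs => (hc hs).2.2 g hg ⟨w, hw s hs, rfl⟩⟩,
          fun s hs => Set.sInter_subset_of_mem hs⟩) _ k0
    refine ⟨K, k2, k3, k4, fun L l1 l2 l3 l4 => l1.antisymm (k5 ⟨l2, l3, l4⟩ l1), fun h => ?_,
      fun h => k1 (h ▸ Set.mem_univ (e 0)) 1 (by simpa)⟩
    obtain ⟨w, hw⟩ := k3
    have : ∀ i, w ∈ Y (i, false) ∨ w ∈ Y (i, true) := fun i => (em _).imp_right fun h' => by
      obtain ⟨a, b, h10, h11⟩ := h.exists_lt_map_eq_of_forall_mem (f := fun n : ℕ => (f i ^ n) w)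
        fun n => k4 _ (pow_mem (hf i) n) ⟨w, hw, rfl⟩
      obtain ⟨n, rfl⟩ := Nat.exists_eq_add_of_lt h10
      rw [add_assoc, pow_add, Equiv.Perm.mul_apply, (f i ^ a).injective.eq_iff] at h11
      exact h11 ▸ h5 i n w h'
    rcases this true with a | a <;> rcases this false with b | b <;>
      exact Set.disjoint_left.1 (h2 _ _ (by simp)) a b
  · obtain ⟨a, ha⟩ := (h9 g hg).1 1
    obtain ⟨b, hb⟩ := (h9 h hh).1 1
    simp only [map_one, one_mul, inv_one, mul_one] at ha hb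
    exact ha ▸ hb ▸ h8 a b
  · have a1 := h1 (true, false) _ (Set.disjoint_left.1 (h3 _) z3)
    have a2 := z2 _ (Set.disjoint_right.1 (h3 _)
      (h1 (true, false) _ (Set.disjoint_left.1 (h2 _ _ (by simp)) a1)))
    rw [mul_inv_eq_one] at h
    rw [← Equiv.Perm.mul_apply, h]
    simp at a2 ⊢
    simp [a2]

lemma D_sm {g : Equiv.Perm Circle} (h : g ∈ D) (k : ℕ) :
    ContDiff ℝ (k : WithTop ℕ∞) fun θ : ℝ => (g (Circle.exp θ) : ℂ) := by
  obtain ⟨F, a, b⟩ := h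
  have : (fun θ : ℝ => (g (Circle.exp θ) : ℂ)) =
      fun θ => Complex.exp ((2 * π * F (θ / (2 * π)) : ℝ) * Complex.I) := funext fun θ => by
    rw [← Circle.coe_exp, ← e, ← b, e, mul_div_cancel₀ _ two_pi_pos.ne']
  rw [this]
  exact (Complex.contDiff_exp (𝕜 := ℝ)).comp ((Complex.ofRealCLM.contDiff.comp
    (contDiff_const.mul ((a.1.of_le (by exact_mod_cast le_top)).comp
    (contDiff_id.div_const _)))).mul contDiff_const)

lemma cont_of {f : Circle → Circle} (h : Continuous fun θ : ℝ => (f (Circle.exp θ) : ℂ)) :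
    Continuous f :=
  (isLocalHomeomorph_circleExp.isOpenMap.isQuotientMap Circle.exp.continuous
    Circle.exp_surjective).continuous_iff.2 (continuous_induced_rng.2 h)

end Pool.Agent.H.MP_3070fc_an
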